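import Pool.Agent.D0H23.PP.Stm

set_option autoImplicit false

/-!
# Project PP, module WIN: every large number lies in the windows of many primes of both classes
-/

namespace Pool.Agent.D0H62.PP

open Finset Filter Pool.Agent.D0H23.PP

theorem kk_nonneg {δ : ℝ} (h1 : δ < 1) : 0 ≤ kk δ := by
  unfold kk
  refine le_min ?_ (by norm_num)
  linarith [h1]

theorem kk_le (δ : ℝ) : kk δ ≤ 1 / 40 := min_le_right _ _

theorem bb_le_aa (δ : ℝ) (u : ℕ) : bb δ u + 1 ≤ aa δ u := by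
  unfold aa
  omega

theorem aa_succ {δ : ℝ} (h1 : δ < 1) (u : ℕ) : aa δ (u + 1) ≤ aa δ u + 2 := by
  have h2 : bb δ (u + 1) ≤ bb δ u + 1 := by
    unfold bb
    rw [Nat.ceil_le]
    push_cast
    have := Nat.le_ceil (δ * u)
    linarith
  have hk0 := kk_nonneg h1
  have hk1 := kk_le δ
  have h3 : ⌊kk δ * ((u + 1 : ℕ) : ℝ)⌋₊ ≤ ⌊kk δ * u⌋₊ + 1 := by
    calc ⌊kk δ * ((u + 1 : ℕ) : ℝ)⌋₊ ≤ ⌊kk δ * u + 1⌋₊ := by
          apply Nat.floor_le_floor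
          push_cast
          linarith
      _ = ⌊kk δ * u⌋₊ + 1 := Nat.floor_add_one (by positivity)
  unfold aa
  omega

/-- Every large `t` has a block. -/
theorem exists_block {δ : ℝ} (h1 : δ < 1) (t v : ℕ) (hv : v = Nat.log 2 t) (ht : t ≠ 0)
    (hv1 : 1 ≤ v) (ha : ∀ u, v ≤ u + 1 → aa δ u ≤ u) :
    ∃ u I : ℕ, v ≤ u + 1 ∧ u ≤ v ∧ 2 ^ aa δ u ∣ I ∧ 2 ^ u ≤ I ∧ I + 2 ^ aa δ u ≤ 2 ^ (u + 1) ∧
      I + 2 ^ aa δ u ≤ t ∧ t < I + 2 ^ (aa δ u + 5) := by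
  have hlt : t < 2 ^ (v + 1) := by rw [hv]; exact Nat.lt_pow_succ_log_self (by norm_num) t
  have hle : 2 ^ v ≤ t := by rw [hv]; exact Nat.pow_log_le_self 2 ht
  by_cases hc : 2 ^ v + 2 ^ (aa δ v + 1) ≤ t
  · have hav : aa δ v ≤ v := ha v (by omega)
    obtain ⟨a, ha'⟩ : ∃ a, a = aa δ v := ⟨_, rfl⟩
    rw [← ha'] at hav hc
    have hp : 0 < 2 ^ a := by positivity
    have hp' : 0 < 2 ^ (v - a) := by positivity
    have e0 : 2 ^ v = 2 ^ a * 2 ^ (v - a) := by rw [← pow_add]; congr 1; omega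
    have e1 : 2 ^ a * (t / 2 ^ a) ≤ t := Nat.mul_div_le t _
    have e2 : t < 2 ^ a * (t / 2 ^ a + 1) := Nat.lt_mul_div_succ t hp
    have e3 : 2 ^ (v - a) + 2 ≤ t / 2 ^ a := by
      rw [Nat.le_div_iff_mul_le hp]
      calc (2 ^ (v - a) + 2) * 2 ^ a = 2 ^ a * 2 ^ (v - a) + 2 ^ (a + 1) := by ring
        _ ≤ t := by rw [← e0]; exact hc
    obtain ⟨r, hr⟩ : ∃ r, t / 2 ^ a = r + 1 := ⟨t / 2 ^ a - 1, by omega⟩
    rw [hr] at e1 e2 e3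
    have e4 : 2 ^ (a + 5) = 2 ^ a * 32 := by rw [pow_add]; norm_num
    have e5 : 2 ^ a * (r + 1) = 2 ^ a * r + 2 ^ a := by ring
    have e6 : 2 ^ a * (r + 1 + 1) = 2 ^ a * r + 2 * 2 ^ a := by ring
    have e7 : 2 ^ a * 2 ^ (v - a) ≤ 2 ^ a * r := Nat.mul_le_mul_left _ (by omega)
    refine ⟨v, 2 ^ a * r, by omega, le_rfl, ?_, ?_, ?_, ?_, ?_⟩
    · rw [← ha']; exact Dvd.intro _ rfl
    · rw [e0]; exact e7
    · rw [← ha']; omega
    · rw [← ha']; omega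
    · rw [← ha']; omega
  · push Not at hc
    obtain ⟨u, rfl⟩ : ∃ u, v = u + 1 := ⟨v - 1, by omega⟩
    have hau : aa δ u ≤ u := ha u le_rfl
    have hs := aa_succ h1 u
    have e1 : 2 ^ (aa δ (u + 1) + 1) ≤ 2 ^ (aa δ u + 3) := Nat.pow_le_pow_right (by norm_num) (by omega)
    have e2 : 2 ^ aa δ u ≤ 2 ^ u := Nat.pow_le_pow_right (by norm_num) hau
    have e3 : 2 ^ (u + 1) = 2 * 2 ^ u := by ring
    have e4 : 2 ^ (aa δ u + 5) = 32 * 2 ^ aa δ u := by rw [pow_add]; ring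
    have e5 : 2 ^ (aa δ u + 3) = 8 * 2 ^ aa δ u := by rw [pow_add]; ring
    have hp : 0 < 2 ^ aa δ u := by positivity
    refine ⟨u, 2 ^ (u + 1) - 2 ^ aa δ u, le_rfl, by omega, ?_, by omega, by omega, by omega, by omega⟩
    exact Nat.dvd_sub (pow_dvd_pow _ (by omega)) dvd_rfl

/-- The elements of a block. -/
theorem block_elem {δ : ℝ} {u I t k u₀ : ℕ} (hu : u₀ ≤ u) (hd : 2 ^ aa δ u ∣ I) (h2 : 2 ^ u ≤ I)
    (h3 : I + 2 ^ aa δ u ≤ 2 ^ (u + 1)) (h4 : I + 2 ^ aa δ u ≤ t) (h5 : t < I + 2 ^ (aa δ u + 5))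
    (hk : I ≤ k) (hk' : k < I + 2 ^ (bb δ u + 1)) :
    Nat.log 2 k = u ∧ k % 2 ^ aa δ u = k - I ∧ DD δ k ∧ HH δ u₀ k = 2 ^ (aa δ u + 5) ∧ k ≤ t ∧
      t < k + HH δ u₀ k := by
  have hba : 2 ^ (bb δ u + 1) ≤ 2 ^ aa δ u := Nat.pow_le_pow_right (by norm_num) (bb_le_aa δ u)
  have hlog : Nat.log 2 k = u := Nat.log_eq_of_pow_le_of_lt_pow (by omega) (by omega)
  have hmod : k % 2 ^ aa δ u = k - I := by
    obtain ⟨c, rfl⟩ := hd
    obtain ⟨r, rfl⟩ : ∃ r, k = 2 ^ aa δ u * c + r := ⟨k - 2 ^ aa δ u * c, by omega⟩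
    rw [Nat.mul_add_mod, Nat.mod_eq_of_lt (by omega)]
    omega
  have hDD : DD δ k := by
    unfold DD
    rw [hlog, hmod]
    omega
  have hHH : HH δ u₀ k = 2 ^ (aa δ u + 5) := by
    unfold HH
    rw [if_pos ⟨by rw [hlog]; exact hu, hDD⟩, hlog]
  refine ⟨hlog, hmod, hDD, hHH, by omega, ?_⟩
  rw [hHH]
  omega

/-- The lower bound for a sum over a class. -/
theorem sum_ge {δ η : ℝ} {u I t u₀ j : ℕ} (hu : u₀ ≤ u) (hd : 2 ^ aa δ u ∣ I) (h2 : 2 ^ u ≤ I)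
    (h3 : I + 2 ^ aa δ u ≤ 2 ^ (u + 1)) (h4 : I + 2 ^ aa δ u ≤ t) (h5 : t < I + 2 ^ (aa δ u + 5))
    (hj : j ≤ 2 ^ bb δ u)
    (hP : η * 2 ^ bb δ u / u ≤ (((Ico (I + j) (I + j + 2 ^ bb δ u)).filter Nat.Prime).card : ℝ))
    (S : Finset ℕ) (hS : ∀ k, k.Prime → I + j ≤ k → k < I + j + 2 ^ bb δ u → k ∈ S) :
    η / (u * 2 ^ (6 + ⌊kk δ * u⌋₊)) ≤
      ∑ k ∈ S.filter (fun k => k ≤ t ∧ t < k + HH δ u₀ k), 1 / (HH δ u₀ k : ℝ) := by
  have e0 : 2 ^ (bb δ u + 1) = 2 ^ bb δ u + 2 ^ bb δ u := by ring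
  have hsub : (Ico (I + j) (I + j + 2 ^ bb δ u)).filter Nat.Prime ⊆
      S.filter (fun k => k ≤ t ∧ t < k + HH δ u₀ k) := by
    intro k hk
    rw [mem_filter, mem_Ico] at hk
    obtain ⟨_, _, _, _, h6, h7⟩ := block_elem hu hd h2 h3 h4 h5 (k := k) (by omega) (by omega)
    exact mem_filter.2 ⟨hS k hk.2 hk.1.1 hk.1.2, h6, h7⟩
  have hsum : ∑ k ∈ (Ico (I + j) (I + j + 2 ^ bb δ u)).filter Nat.Prime, 1 / (HH δ u₀ k : ℝ) =
      (((Ico (I + j) (I + j + 2 ^ bb δ u)).filter Nat.Prime).card : ℝ) * (1 / 2 ^ (aa δ u + 5)) := by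
    rw [← nsmul_eq_mul, ← sum_const]
    refine sum_congr rfl fun k hk => ?_
    rw [mem_filter, mem_Ico] at hk
    obtain ⟨_, _, _, h6, _, _⟩ := block_elem hu hd h2 h3 h4 h5 (k := k) (by omega) (by omega)
    rw [h6]
    push_cast
    rfl
  refine le_trans ?_ (sum_le_sum_of_subset_of_nonneg hsub fun k _ _ => by positivity)
  rw [hsum]
  refine le_trans (le_of_eq ?_) (mul_le_mul_of_nonneg_right hP (by positivity))
  have e1 : (2 : ℝ) ^ (aa δ u + 5) = 2 ^ bb δ u * 2 ^ (6 + ⌊kk δ * u⌋₊) := by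
    rw [← pow_add]
    congr 1
    unfold aa
    omega
  rw [e1]
  by_cases hu0 : (u : ℝ) = 0
  · rw [hu0]; simp
  · field_simp

/-- The final estimate. -/
theorem final (δ η : ℝ) (h1 : δ < 1) (hη : 0 < η) : ∀ᶠ t : ℕ in atTop, ∀ u : ℕ, 1 ≤ u → 2 ^ u ≤ t →
    (t : ℝ) ^ (-(1 / 32) : ℝ) ≤ η / (u * 2 ^ (6 + ⌊kk δ * u⌋₊)) := by
  have h2 : ∀ᶠ x : ℝ in atTop, ‖Real.log x‖ ≤ (η / 128) * ‖x ^ (1 / 160 : ℝ)‖ :=
    (isLittleO_log_rpow_atTop (by norm_num : (0 : ℝ) < 1 / 160)).def (by positivity)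
  have h3 := tendsto_natCast_atTop_atTop (R := ℝ) |>.eventually h2
  filter_upwards [h3, eventually_ge_atTop 1] with t ht ht1 u hu1 hut
  have ht0 : (1 : ℝ) ≤ t := by exact_mod_cast ht1
  have htpos : (0 : ℝ) < t := by linarith
  rw [Real.norm_of_nonneg (Real.log_nonneg ht0), Real.norm_of_nonneg (by positivity)] at ht
  have hut' : (2 : ℝ) ^ (u : ℝ) ≤ t := by
    rw [Real.rpow_natCast]
    exact_mod_cast hut
  have hlog : (u : ℝ) ≤ 2 * Real.log t := by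
    have h4 := Real.log_le_log (by positivity) hut'
    rw [Real.log_rpow (by norm_num)] at h4
    have h5 := Real.log_two_gt_d9
    have h6 : (0 : ℝ) ≤ u := by positivity
    nlinarith
  have hfl : (2 : ℝ) ^ ⌊kk δ * u⌋₊ ≤ (t : ℝ) ^ (1 / 40 : ℝ) := by
    rw [← Real.rpow_natCast]
    have h4 : (⌊kk δ * u⌋₊ : ℝ) ≤ (u : ℝ) * (1 / 40) := by
      refine (Nat.floor_le (mul_nonneg (kk_nonneg h1) (by positivity))).trans ?_
      have := kk_le δ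
      have h6 : (0 : ℝ) ≤ u := by positivity
      nlinarith
    calc (2 : ℝ) ^ (⌊kk δ * u⌋₊ : ℝ) ≤ (2 : ℝ) ^ ((u : ℝ) * (1 / 40)) :=
          Real.rpow_le_rpow_of_exponent_le (by norm_num) h4
      _ = ((2 : ℝ) ^ (u : ℝ)) ^ (1 / 40 : ℝ) := Real.rpow_mul (by norm_num) _ _
      _ ≤ (t : ℝ) ^ (1 / 40 : ℝ) := Real.rpow_le_rpow (by positivity) hut' (by norm_num)
  have hu0 : (0 : ℝ) < u := by exact_mod_cast hu1
  rw [le_div_iff₀ (by positivity), pow_add]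
  have e1 : (t : ℝ) ^ (-(1 / 32) : ℝ) * (t : ℝ) ^ (1 / 40 : ℝ) * (t : ℝ) ^ (1 / 160 : ℝ) = 1 := by
    rw [← Real.rpow_add htpos, ← Real.rpow_add htpos]
    norm_num
  have e2 : (0 : ℝ) < (t : ℝ) ^ (-(1 / 32) : ℝ) := by positivity
  calc (t : ℝ) ^ (-(1 / 32) : ℝ) * (u * (2 ^ 6 * 2 ^ ⌊kk δ * u⌋₊))
      ≤ (t : ℝ) ^ (-(1 / 32) : ℝ) * ((2 * (η / 128 * (t : ℝ) ^ (1 / 160 : ℝ))) *
          (2 ^ 6 * (t : ℝ) ^ (1 / 40 : ℝ))) := by
        gcongr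
        linarith
    _ = η * ((t : ℝ) ^ (-(1 / 32) : ℝ) * (t : ℝ) ^ (1 / 40 : ℝ) * (t : ℝ) ^ (1 / 160 : ℝ)) := by ring
    _ = η := by rw [e1, mul_one]

theorem aa_le {δ : ℝ} (h0 : 0 < δ) (h1 : δ < 1) : ∃ u₁ : ℕ, ∀ u, u₁ ≤ u → aa δ u ≤ u := by
  obtain ⟨u₁, hu₁⟩ := exists_nat_ge (4 / (1 - δ))
  refine ⟨u₁, fun u hu => ?_⟩
  have hpos : 0 < 1 - δ := by linarith
  have hu' : 4 / (1 - δ) ≤ (u : ℝ) := hu₁.trans (by exact_mod_cast hu)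
  rw [div_le_iff₀ hpos] at hu'
  have h6 : (0 : ℝ) ≤ u := by positivity
  have hb : (bb δ u : ℝ) < δ * u + 1 := Nat.ceil_lt_add_one (by positivity)
  have hf : (⌊kk δ * u⌋₊ : ℝ) ≤ kk δ * u := Nat.floor_le (mul_nonneg (kk_nonneg h1) h6)
  have hk : kk δ ≤ (1 - δ) / 4 := min_le_left _ _
  have hkk : kk δ * u ≤ (1 - δ) / 4 * u := mul_le_mul_of_nonneg_right hk h6
  have : (aa δ u : ℝ) ≤ u := by
    unfold aa
    push_cast
    nlinarith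
  exact_mod_cast this

theorem t_WIN : Pool.Agent.D0H23.PP.S_WIN := by
  classical
  intro δ η hH u₀
  obtain ⟨h0, h1, hη, w₀, hw⟩ := hH
  obtain ⟨u₁, hu₁⟩ := aa_le h0 h1
  have hlogt : Tendsto (fun t : ℕ => Nat.log 2 t) atTop atTop := by
    refine tendsto_atTop.2 fun b => ?_
    filter_upwards [eventually_ge_atTop (2 ^ b)] with t ht
    exact Nat.le_log_of_pow_le (by norm_num) ht
  filter_upwards [final δ η h1 hη, hlogt.eventually_ge_atTop (u₀ + u₁ + w₀ + 2), eventually_ge_atTop 1]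
    with t hf hl ht1 N hN
  obtain ⟨u, I, h2, h3, h4, h5, h6, h7, h8⟩ := exists_block h1 t (Nat.log 2 t) rfl (by omega) (by omega)
    (fun u hu => hu₁ u (by omega))
  have hfin := hf u (by omega) (by
    have : 0 < 2 ^ aa δ u := by positivity
    omega)
  have hba : 2 ^ (bb δ u + 1) ≤ 2 ^ aa δ u := Nat.pow_le_pow_right (by norm_num) (bb_le_aa δ u)
  have e0 : 2 ^ (bb δ u + 1) = 2 ^ bb δ u + 2 ^ bb δ u := by ring
  have hau : 2 ^ aa δ u ≤ 2 ^ u := Nat.pow_le_pow_right (by norm_num) (hu₁ u (by omega))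
  have hH1 : (2 : ℝ) ^ (δ * u) ≤ ((2 ^ bb δ u : ℕ) : ℝ) := by
    push_cast
    rw [← Real.rpow_natCast]
    exact Real.rpow_le_rpow_of_exponent_le (by norm_num) (Nat.le_ceil _)
  have e3 : 2 ^ (u + 1) = 2 * 2 ^ u := by ring
  have hb0 : 0 < 2 ^ bb δ u := by positivity
  have hu0 : 0 < 2 ^ u := by positivity
  refine ⟨hfin.trans ?_, hfin.trans ?_⟩
  · refine sum_ge (j := 0) (by omega) h4 h5 h6 h7 h8 (Nat.zero_le _) ?_ _ ?_
    · have := hw u (2 ^ bb δ u) (I - 2 ^ u) (by omega) hH1 (by omega) (by omega)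
      rw [show 2 ^ u + (I - 2 ^ u) = I + 0 by omega] at this
      push_cast at this
      exact this
    · intro k hk hk1 hk2
      obtain ⟨g1, g2, g3, g4, g5, g6⟩ := block_elem (u₀ := u₀) (by omega) h4 h5 h6 h7 h8 (k := k) (by omega) (by omega)
      unfold CA
      rw [mem_filter, mem_range, g1, g2]
      exact ⟨by omega, hk, by omega⟩
  · refine sum_ge (j := 2 ^ bb δ u) (by omega) h4 h5 h6 h7 h8 le_rfl ?_ _ ?_
    · have := hw u (2 ^ bb δ u) (I + 2 ^ bb δ u - 2 ^ u) (by omega) hH1 (by omega) (by omega)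
      rw [show 2 ^ u + (I + 2 ^ bb δ u - 2 ^ u) = I + 2 ^ bb δ u by omega] at this
      push_cast at this
      exact this
    · intro k hk hk1 hk2
      obtain ⟨g1, g2, g3, g4, g5, g6⟩ := block_elem (u₀ := u₀) (by omega) h4 h5 h6 h7 h8 (k := k) (by omega) (by omega)
      unfold CB
      rw [mem_filter, mem_range, g1, g2]
      exact ⟨by omega, hk, by omega, g3⟩

end Pool.Agent.D0H62.PP
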