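import Pool.Agent.D0H23.PP.Stm2

set_option autoImplicit false

/-!
# Project PP, module WIN2: every large number lies in the windows of many of the primes that are moved
-/

namespace Pool.Agent.D0H62.PP2

open Finset Filter Pool.Agent.D0H23.PP

theorem kk2_nonneg {δ β : ℝ} (h1 : δ < 1) (hβ : 0 < β) : 0 ≤ kk2 δ β := by
  unfold kk2
  refine le_min ?_ (by linarith)
  linarith [h1]

theorem bb_le_aa2 (δ β : ℝ) (u : ℕ) : bb δ u + 1 ≤ aa2 δ β u := by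
  unfold aa2
  omega

theorem aa2_succ {δ β : ℝ} (h1 : δ < 1) (hβ : 0 < β) (hβ' : β ≤ 1 / 4) (u : ℕ) :
    aa2 δ β (u + 1) ≤ aa2 δ β u + 2 := by
  have h2 : bb δ (u + 1) ≤ bb δ u + 1 := by
    unfold bb
    rw [Nat.ceil_le]
    push_cast
    have := Nat.le_ceil (δ * u)
    linarith
  have hk0 := kk2_nonneg h1 hβ
  have hk1 : kk2 δ β ≤ β / 2 := min_le_right _ _
  have h3 : ⌊kk2 δ β * ((u + 1 : ℕ) : ℝ)⌋₊ ≤ ⌊kk2 δ β * u⌋₊ + 1 := by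
    calc ⌊kk2 δ β * ((u + 1 : ℕ) : ℝ)⌋₊ ≤ ⌊kk2 δ β * u + 1⌋₊ := by
          apply Nat.floor_le_floor
          push_cast
          linarith
      _ = ⌊kk2 δ β * u⌋₊ + 1 := Nat.floor_add_one (by positivity)
  unfold aa2
  omega

/-- Every large `t` has a block. -/
theorem exists_block (a : ℕ → ℕ) (hs : ∀ u, a (u + 1) ≤ a u + 2) (t v : ℕ) (hv : v = Nat.log 2 t)
    (ht : t ≠ 0) (hv1 : 1 ≤ v) (ha : ∀ u, v ≤ u + 1 → a u ≤ u) :
    ∃ u I : ℕ, v ≤ u + 1 ∧ u ≤ v ∧ 2 ^ a u ∣ I ∧ 2 ^ u ≤ I ∧ I + 2 ^ a u ≤ 2 ^ (u + 1) ∧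
      I + 2 ^ a u ≤ t ∧ t < I + 2 ^ (a u + 5) := by
  have hlt : t < 2 ^ (v + 1) := by rw [hv]; exact Nat.lt_pow_succ_log_self (by norm_num) t
  have hle : 2 ^ v ≤ t := by rw [hv]; exact Nat.pow_log_le_self 2 ht
  by_cases hc : 2 ^ v + 2 ^ (a v + 1) ≤ t
  · have hav : a v ≤ v := ha v (by omega)
    obtain ⟨b, hb'⟩ : ∃ b, b = a v := ⟨_, rfl⟩
    rw [← hb'] at hav hc
    have hp : 0 < 2 ^ b := by positivity
    have hp' : 0 < 2 ^ (v - b) := by positivity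
    have e0 : 2 ^ v = 2 ^ b * 2 ^ (v - b) := by rw [← pow_add]; congr 1; omega
    have e1 : 2 ^ b * (t / 2 ^ b) ≤ t := Nat.mul_div_le t _
    have e2 : t < 2 ^ b * (t / 2 ^ b + 1) := Nat.lt_mul_div_succ t hp
    have e3 : 2 ^ (v - b) + 2 ≤ t / 2 ^ b := by
      rw [Nat.le_div_iff_mul_le hp]
      calc (2 ^ (v - b) + 2) * 2 ^ b = 2 ^ b * 2 ^ (v - b) + 2 ^ (b + 1) := by ring
        _ ≤ t := by rw [← e0]; exact hc
    obtain ⟨r, hr⟩ : ∃ r, t / 2 ^ b = r + 1 := ⟨t / 2 ^ b - 1, by omega⟩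
    rw [hr] at e1 e2 e3
    have e4 : 2 ^ (b + 5) = 2 ^ b * 32 := by rw [pow_add]; norm_num
    have e5 : 2 ^ b * (r + 1) = 2 ^ b * r + 2 ^ b := by ring
    have e6 : 2 ^ b * (r + 1 + 1) = 2 ^ b * r + 2 * 2 ^ b := by ring
    have e7 : 2 ^ b * 2 ^ (v - b) ≤ 2 ^ b * r := Nat.mul_le_mul_left _ (by omega)
    refine ⟨v, 2 ^ b * r, by omega, le_rfl, ?_, ?_, ?_, ?_, ?_⟩
    · rw [← hb']; exact Dvd.intro _ rfl
    · rw [e0]; exact e7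
    · rw [← hb']; omega
    · rw [← hb']; omega
    · rw [← hb']; omega
  · push Not at hc
    obtain ⟨u, rfl⟩ : ∃ u, v = u + 1 := ⟨v - 1, by omega⟩
    have hau : a u ≤ u := ha u le_rfl
    have hs := hs u
    have e1 : 2 ^ (a (u + 1) + 1) ≤ 2 ^ (a u + 3) := Nat.pow_le_pow_right (by norm_num) (by omega)
    have e2 : 2 ^ a u ≤ 2 ^ u := Nat.pow_le_pow_right (by norm_num) hau
    have e3 : 2 ^ (u + 1) = 2 * 2 ^ u := by ring
    have e4 : 2 ^ (a u + 5) = 32 * 2 ^ a u := by rw [pow_add]; ring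
    have e5 : 2 ^ (a u + 3) = 8 * 2 ^ a u := by rw [pow_add]; ring
    have hp : 0 < 2 ^ a u := by positivity
    refine ⟨u, 2 ^ (u + 1) - 2 ^ a u, le_rfl, by omega, ?_, by omega, by omega, by omega, by omega⟩
    exact Nat.dvd_sub (pow_dvd_pow _ (by omega)) dvd_rfl

/-- The elements of a block. -/
theorem block_elem {δ β : ℝ} {u I t k : ℕ} (hd : 2 ^ aa2 δ β u ∣ I) (h2 : 2 ^ u ≤ I)
    (h3 : I + 2 ^ aa2 δ β u ≤ 2 ^ (u + 1)) (h4 : I + 2 ^ aa2 δ β u ≤ t)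
    (h5 : t < I + 2 ^ (aa2 δ β u + 5)) (hk : I ≤ k) (hk' : k < I + 2 ^ (bb δ u + 1)) :
    Nat.log 2 k = u ∧ k % 2 ^ aa2 δ β u = k - I ∧ k ≤ t ∧ t < k + 2 ^ (aa2 δ β u + 5) := by
  have hba : 2 ^ (bb δ u + 1) ≤ 2 ^ aa2 δ β u := Nat.pow_le_pow_right (by norm_num) (bb_le_aa2 δ β u)
  have hlog : Nat.log 2 k = u := Nat.log_eq_of_pow_le_of_lt_pow (by omega) (by omega)
  have hmod : k % 2 ^ aa2 δ β u = k - I := by
    obtain ⟨c, rfl⟩ := hd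
    obtain ⟨r, rfl⟩ : ∃ r, k = 2 ^ aa2 δ β u * c + r := ⟨k - 2 ^ aa2 δ β u * c, by omega⟩
    rw [Nat.mul_add_mod, Nat.mod_eq_of_lt (by omega)]
    omega
  exact ⟨hlog, hmod, by omega, by omega⟩

/-- The first `N` elements of a finite set. -/
theorem count_ge (P : Finset ℕ) (N : ℕ) (h : N ≤ P.card) :
    N ≤ (P.filter (fun k => (P.filter (fun j => j < k)).card < N)).card := by
  by_contra hc
  push Not at hc
  set Q : Finset ℕ := P.filter (fun k => (P.filter (fun j => j < k)).card < N) with hQ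
  have hne : (P \ Q).Nonempty := by
    by_contra hne
    rw [not_nonempty_iff_eq_empty, sdiff_eq_empty_iff_subset] at hne
    have := card_le_card hne
    omega
  have hk := (P \ Q).min'_mem hne
  have hmin : ∀ j ∈ P \ Q, (P \ Q).min' hne ≤ j := fun j hj => (P \ Q).min'_le j hj
  set k := (P \ Q).min' hne
  have hsub : P.filter (fun j => j < k) ⊆ Q := by
    intro j hj
    by_contra hjQ
    have h1 := hmin j (mem_sdiff.2 ⟨(mem_filter.1 hj).1, hjQ⟩)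
    have h2 := (mem_filter.1 hj).2
    omega
  exact (mem_sdiff.1 hk).2 (mem_filter.2 ⟨(mem_sdiff.1 hk).1, (card_le_card hsub).trans_lt hc⟩)

/-- The lower bound for a sum over a class. -/
theorem sum_ge {δ β : ℝ} {u I t u₀ j c : ℕ} (hd : 2 ^ aa2 δ β u ∣ I) (h2 : 2 ^ u ≤ I)
    (h3 : I + 2 ^ aa2 δ β u ≤ 2 ^ (u + 1)) (h4 : I + 2 ^ aa2 δ β u ≤ t)
    (h5 : t < I + 2 ^ (aa2 δ β u + 5)) (hj : j ≤ 2 ^ bb δ u)
    (hP : 2 ^ c ≤ ((Ico (I + j) (I + j + 2 ^ bb δ u)).filter Nat.Prime).card)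
    (hc : 2 ^ aa2 δ β u ≤ 2 ^ c * 2 ^ ⌊β * u⌋₊)
    (S : Finset ℕ) (hS : ∀ k, k.Prime → I + j ≤ k → k < I + j + 2 ^ bb δ u →
      ((Ico (I + j) k).filter Nat.Prime).card < 2 ^ c → k ∈ S ∧ HH2 δ β u₀ k = 2 ^ (aa2 δ β u + 5)) :
    1 / ((2 : ℝ) ^ (⌊β * u⌋₊ + 5)) ≤
      ∑ k ∈ S.filter (fun k => k ≤ t ∧ t < k + HH2 δ β u₀ k), 1 / (HH2 δ β u₀ k : ℝ) := by
  have e0 : 2 ^ (bb δ u + 1) = 2 ^ bb δ u + 2 ^ bb δ u := by ring
  set P : Finset ℕ := (Ico (I + j) (I + j + 2 ^ bb δ u)).filter Nat.Prime with hPdef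
  set Q : Finset ℕ := P.filter (fun k => (P.filter (fun i => i < k)).card < 2 ^ c) with hQdef
  have hQ : 2 ^ c ≤ Q.card := count_ge P _ hP
  have hQS : ∀ k ∈ Q, I ≤ k ∧ k < I + 2 ^ (bb δ u + 1) ∧ k ∈ S ∧ HH2 δ β u₀ k = 2 ^ (aa2 δ β u + 5) := by
    intro k hk
    obtain ⟨h6, h7⟩ := mem_filter.1 hk
    obtain ⟨h8, h9⟩ := mem_filter.1 h6
    rw [mem_Ico] at h8
    have e1 : P.filter (fun i => i < k) = (Ico (I + j) k).filter Nat.Prime := by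
      ext x
      simp only [hPdef, mem_filter, mem_Ico]
      constructor
      · rintro ⟨⟨⟨h, _⟩, h'⟩, h''⟩
        exact ⟨⟨h, h''⟩, h'⟩
      · rintro ⟨⟨h, h''⟩, h'⟩
        exact ⟨⟨⟨h, by omega⟩, h'⟩, h''⟩
    rw [e1] at h7
    obtain ⟨h10, h11⟩ := hS k h9 h8.1 h8.2 h7
    exact ⟨by omega, by omega, h10, h11⟩
  have hsub : Q ⊆ S.filter (fun k => k ≤ t ∧ t < k + HH2 δ β u₀ k) := by
    intro k hk
    obtain ⟨h6, h7, h8, h9⟩ := hQS k hk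
    obtain ⟨_, _, h10, h11⟩ := block_elem hd h2 h3 h4 h5 h6 h7
    exact mem_filter.2 ⟨h8, h10, by rw [h9]; exact h11⟩
  have hsum : ∑ k ∈ Q, 1 / (HH2 δ β u₀ k : ℝ) = (Q.card : ℝ) * (1 / 2 ^ (aa2 δ β u + 5)) := by
    rw [← nsmul_eq_mul, ← sum_const]
    refine sum_congr rfl fun k hk => ?_
    rw [(hQS k hk).2.2.2]
    push_cast
    rfl
  refine le_trans ?_ (sum_le_sum_of_subset_of_nonneg hsub fun k _ _ => by positivity)
  rw [hsum]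
  have hQ' : (2 : ℝ) ^ c ≤ Q.card := by exact_mod_cast hQ
  have hc' : (2 : ℝ) ^ aa2 δ β u ≤ 2 ^ c * 2 ^ ⌊β * u⌋₊ := by exact_mod_cast hc
  refine le_trans ?_ (mul_le_mul_of_nonneg_right hQ' (by positivity))
  rw [mul_one_div, div_le_div_iff₀ (by positivity) (by positivity), one_mul, pow_add, pow_add]
  nlinarith

/-- The number of the primes that are moved. -/
theorem cc2_le (δ η β : ℝ) (hη : 0 < η) (hδ : 1 / 2 ≤ δ) (hβ : 0 < β) (hβ' : β ≤ 1 / 4) :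
    ∃ u₁ : ℕ, ∀ u : ℕ, u₁ ≤ u → 2 ^ aa2 δ β u ≤ 2 ^ cc2 δ β u * 2 ^ ⌊β * u⌋₊ ∧
      (2 : ℝ) ^ cc2 δ β u ≤ η * ((2 ^ bb δ u : ℕ) : ℝ) / u := by
  have hlim : Tendsto (fun u : ℕ => (u : ℝ) * ((2 : ℝ) ^ (-(β / 2))) ^ u) atTop (nhds 0) :=
    tendsto_self_mul_const_pow_of_lt_one (by positivity)
      (Real.rpow_lt_one_of_one_lt_of_neg (by norm_num) (by linarith))
  have hev := (hlim.eventually_lt_const (show (0 : ℝ) < η / 4 by positivity)).and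
    (eventually_ge_atTop 1)
  obtain ⟨u₁, hu₁⟩ := eventually_atTop.1 hev
  refine ⟨u₁, fun u hu => ?_⟩
  obtain ⟨h1, h2⟩ := hu₁ u hu
  have hu0 : (0 : ℝ) < u := by exact_mod_cast h2
  have hle : ⌊β * u⌋₊ ≤ aa2 δ β u := by
    have h3 : ⌊β * u⌋₊ ≤ bb δ u := by
      unfold bb
      have h4 : (⌊β * u⌋₊ : ℝ) ≤ β * u := Nat.floor_le (by positivity)
      have h5 : δ * u ≤ ⌈δ * u⌉₊ := Nat.le_ceil _
      have : (⌊β * u⌋₊ : ℝ) ≤ ⌈δ * u⌉₊ := by nlinarith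
      exact_mod_cast this
    have := bb_le_aa2 δ β u
    omega
  have e1 : 2 ^ cc2 δ β u * 2 ^ ⌊β * u⌋₊ = 2 ^ aa2 δ β u := by
    rw [← pow_add]
    congr 1
    unfold cc2
    omega
  refine ⟨e1.ge, ?_⟩
  have e2 : (2 : ℝ) ^ cc2 δ β u * 2 ^ ⌊β * u⌋₊ = 2 ^ bb δ u * 2 * 2 ^ ⌊kk2 δ β * u⌋₊ := by
    have : (2 : ℝ) ^ cc2 δ β u * 2 ^ ⌊β * u⌋₊ = 2 ^ aa2 δ β u := by exact_mod_cast e1
    rw [this]
    unfold aa2
    rw [pow_add, pow_add]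
    ring
  have h6 : (2 : ℝ) ^ ⌊kk2 δ β * u⌋₊ * ((2 : ℝ) ^ (β / 2)) ^ u ≤ 2 * 2 ^ ⌊β * u⌋₊ := by
    have h7 : (⌊kk2 δ β * u⌋₊ : ℝ) ≤ β / 2 * u := by
      by_cases hk : 0 ≤ kk2 δ β
      · refine (Nat.floor_le (by positivity)).trans ?_
        exact mul_le_mul_of_nonneg_right (min_le_right _ _) hu0.le
      · push Not at hk
        rw [Nat.floor_of_nonpos (by nlinarith)]
        simp only [Nat.cast_zero]
        positivity
    have h8 : β * u < ⌊β * u⌋₊ + 1 := Nat.lt_floor_add_one _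
    calc (2 : ℝ) ^ ⌊kk2 δ β * u⌋₊ * ((2 : ℝ) ^ (β / 2)) ^ u
        = (2 : ℝ) ^ ((⌊kk2 δ β * u⌋₊ : ℝ) + β / 2 * u) := by
          rw [Real.rpow_add (by norm_num), Real.rpow_natCast, Real.rpow_mul (by norm_num),
            Real.rpow_natCast]
      _ ≤ (2 : ℝ) ^ ((⌊β * u⌋₊ : ℝ) + 1) :=
          Real.rpow_le_rpow_of_exponent_le (by norm_num) (by linarith)
      _ = 2 * 2 ^ ⌊β * u⌋₊ := by
          rw [Real.rpow_add (by norm_num), Real.rpow_natCast, Real.rpow_one]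
          ring
  have h9 : (u : ℝ) * 4 ≤ η * ((2 : ℝ) ^ (β / 2)) ^ u := by
    have h10 : ((2 : ℝ) ^ (-(β / 2))) ^ u * ((2 : ℝ) ^ (β / 2)) ^ u = 1 := by
      rw [← mul_pow, ← Real.rpow_add (by norm_num)]
      simp
    have h11 : (0 : ℝ) < ((2 : ℝ) ^ (β / 2)) ^ u := by positivity
    have h12 := mul_lt_mul_of_pos_right h1 h11
    have h13 : (u : ℝ) * ((2 : ℝ) ^ (-(β / 2))) ^ u * ((2 : ℝ) ^ (β / 2)) ^ u = u := by
      rw [mul_assoc, h10, mul_one]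
    rw [h13] at h12
    linarith
  rw [le_div_iff₀ hu0]
  push_cast
  have hA : (0 : ℝ) < 2 ^ ⌊β * u⌋₊ := by positivity
  have hB : (0 : ℝ) < 2 ^ bb δ u := by positivity
  have hK : (0 : ℝ) < 2 ^ ⌊kk2 δ β * u⌋₊ := by positivity
  refine le_of_mul_le_mul_right ?_ hA
  calc (2 : ℝ) ^ cc2 δ β u * u * 2 ^ ⌊β * u⌋₊
      = (2 : ℝ) ^ bb δ u * 2 ^ ⌊kk2 δ β * u⌋₊ * (u * 4) / 2 := by
        linear_combination (u : ℝ) * e2
    _ ≤ (2 : ℝ) ^ bb δ u * 2 ^ ⌊kk2 δ β * u⌋₊ * (η * ((2 : ℝ) ^ (β / 2)) ^ u) / 2 := by gcongr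
    _ = (2 : ℝ) ^ bb δ u * η * ((2 : ℝ) ^ ⌊kk2 δ β * u⌋₊ * ((2 : ℝ) ^ (β / 2)) ^ u) / 2 := by ring
    _ ≤ (2 : ℝ) ^ bb δ u * η * (2 * 2 ^ ⌊β * u⌋₊) / 2 := by gcongr
    _ = η * 2 ^ bb δ u * 2 ^ ⌊β * u⌋₊ := by ring

/-- The final estimate. -/
theorem final (β e : ℝ) (hβ : 0 < β) (he : 0 < e) : ∀ᶠ t : ℕ in atTop, ∀ u : ℕ, 2 ^ u ≤ t →
    (t : ℝ) ^ (-(β + e)) ≤ 1 / ((2 : ℝ) ^ (⌊β * u⌋₊ + 5)) := by
  have h1 : Tendsto (fun t : ℕ => (t : ℝ) ^ e) atTop atTop :=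
    (tendsto_rpow_atTop he).comp tendsto_natCast_atTop_atTop
  filter_upwards [h1.eventually_ge_atTop 32, eventually_ge_atTop 1] with t ht ht1 u hut
  have ht0 : (1 : ℝ) ≤ t := by exact_mod_cast ht1
  have htpos : (0 : ℝ) < t := by linarith
  have hut' : (2 : ℝ) ^ (u : ℝ) ≤ t := by
    rw [Real.rpow_natCast]
    exact_mod_cast hut
  have hfl : (2 : ℝ) ^ ⌊β * u⌋₊ ≤ (t : ℝ) ^ β := by
    rw [← Real.rpow_natCast]
    have h4 : (⌊β * u⌋₊ : ℝ) ≤ (u : ℝ) * β := by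
      rw [mul_comm (u : ℝ)]
      exact Nat.floor_le (by positivity)
    calc (2 : ℝ) ^ (⌊β * u⌋₊ : ℝ) ≤ (2 : ℝ) ^ ((u : ℝ) * β) :=
          Real.rpow_le_rpow_of_exponent_le (by norm_num) h4
      _ = ((2 : ℝ) ^ (u : ℝ)) ^ β := Real.rpow_mul (by norm_num) _ _
      _ ≤ (t : ℝ) ^ β := Real.rpow_le_rpow (by positivity) hut' hβ.le
  rw [Real.rpow_neg htpos.le, Real.rpow_add htpos, ← one_div]
  refine one_div_le_one_div_of_le (by positivity) ?_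
  rw [pow_add]
  have : (2 : ℝ) ^ 5 = 32 := by norm_num
  rw [this]
  exact mul_le_mul hfl ht (by norm_num) (by positivity)

theorem aa2_le {δ β : ℝ} (h0 : 0 < δ) (h1 : δ < 1) (hβ : 0 < β) : ∃ u₁ : ℕ, ∀ u, u₁ ≤ u → aa2 δ β u ≤ u := by
  obtain ⟨u₁, hu₁⟩ := exists_nat_ge (4 / (1 - δ))
  refine ⟨u₁, fun u hu => ?_⟩
  have hpos : 0 < 1 - δ := by linarith
  have hu' : 4 / (1 - δ) ≤ (u : ℝ) := hu₁.trans (by exact_mod_cast hu)
  rw [div_le_iff₀ hpos] at hu'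
  have h6 : (0 : ℝ) ≤ u := by positivity
  have hb : (bb δ u : ℝ) < δ * u + 1 := Nat.ceil_lt_add_one (by positivity)
  have hf : (⌊kk2 δ β * u⌋₊ : ℝ) ≤ kk2 δ β * u := Nat.floor_le (mul_nonneg (kk2_nonneg h1 hβ) h6)
  have hk : kk2 δ β ≤ (1 - δ) / 4 := min_le_left _ _
  have hkk : kk2 δ β * u ≤ (1 - δ) / 4 * u := mul_le_mul_of_nonneg_right hk h6
  have : (aa2 δ β u : ℝ) ≤ u := by
    unfold aa2
    push_cast
    nlinarith
  exact_mod_cast this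

end Pool.Agent.D0H62.PP2

namespace Pool.Agent.D0H62.PP

open Finset Filter Pool.Agent.D0H23.PP Pool.Agent.D0H62.PP2

theorem t_WIN2 : Pool.Agent.D0H23.PP.S_WIN2 := by
  classical
  intro δ η β e hH hδ hβ hβ' he u₀
  obtain ⟨h0, h1, hη, w₀, hw⟩ := hH
  obtain ⟨u₁, hu₁⟩ := aa2_le h0 h1 hβ
  obtain ⟨u₂, hu₂⟩ := cc2_le δ η β hη hδ hβ hβ'
  have hlogt : Tendsto (fun t : ℕ => Nat.log 2 t) atTop atTop := by
    refine tendsto_atTop.2 fun b => ?_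
    filter_upwards [eventually_ge_atTop (2 ^ b)] with t ht
    exact Nat.le_log_of_pow_le (by norm_num) ht
  filter_upwards [final β e hβ he, hlogt.eventually_ge_atTop (u₀ + u₁ + u₂ + w₀ + 2), eventually_ge_atTop 1]
    with t hf hl ht1 N hN
  obtain ⟨u, I, h2, h3, h4, h5, h6, h7, h8⟩ := exists_block (aa2 δ β) (aa2_succ h1 hβ hβ') t
    (Nat.log 2 t) rfl (by omega) (by omega) (fun u hu => hu₁ u (by omega))
  have hfin := hf u (by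
    have : 0 < 2 ^ aa2 δ β u := by positivity
    omega)
  obtain ⟨hc1, hc2⟩ := hu₂ u (by omega)
  have hba : 2 ^ (bb δ u + 1) ≤ 2 ^ aa2 δ β u := Nat.pow_le_pow_right (by norm_num) (bb_le_aa2 δ β u)
  have e0 : 2 ^ (bb δ u + 1) = 2 ^ bb δ u + 2 ^ bb δ u := by ring
  have hau : 2 ^ aa2 δ β u ≤ 2 ^ u := Nat.pow_le_pow_right (by norm_num) (hu₁ u (by omega))
  have hH1 : (2 : ℝ) ^ (δ * u) ≤ ((2 ^ bb δ u : ℕ) : ℝ) := by
    push_cast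
    rw [← Real.rpow_natCast]
    exact Real.rpow_le_rpow_of_exponent_le (by norm_num) (Nat.le_ceil _)
  have e3 : 2 ^ (u + 1) = 2 * 2 ^ u := by ring
  have hb0 : 0 < 2 ^ bb δ u := by positivity
  have hu0 : 0 < 2 ^ u := by positivity
  have hHH : ∀ k, I ≤ k → k < I + 2 ^ (bb δ u + 1) → (A2 δ β k ∨ B2 δ β k) →
      HH2 δ β u₀ k = 2 ^ (aa2 δ β u + 5) := by
    intro k hk hk' hAB
    obtain ⟨g1, g2, g3, g4⟩ := block_elem h4 h5 h6 h7 h8 hk hk'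
    unfold HH2
    rw [if_pos ⟨by rw [g1]; omega, hAB⟩, g1]
  refine ⟨hfin.trans ?_, hfin.trans ?_⟩
  · refine sum_ge (j := 0) (c := cc2 δ β u) h4 h5 h6 h7 h8 (Nat.zero_le _) ?_ hc1 _ ?_
    · have h9 := hw u (2 ^ bb δ u) (I - 2 ^ u) (by omega) hH1 (by omega) (by omega)
      rw [show 2 ^ u + (I - 2 ^ u) = I + 0 by omega] at h9
      exact_mod_cast hc2.trans h9
    · intro k hk hk1 hk2 hk3
      obtain ⟨g1, g2, g3, g4⟩ := block_elem h4 h5 h6 h7 h8 (k := k) (by omega) (by omega)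
      have hA : A2 δ β k := by
        unfold A2
        rw [g1, g2, show k - (k - I) = I + 0 by omega]
        exact ⟨hk, by omega, hk3⟩
      refine ⟨?_, hHH k (by omega) (by omega) (Or.inl hA)⟩
      unfold CA2
      exact mem_filter.2 ⟨mem_range.2 (by omega), hA⟩
  · refine sum_ge (j := 2 ^ bb δ u) (c := cc2 δ β u) h4 h5 h6 h7 h8 le_rfl ?_ hc1 _ ?_
    · have h9 := hw u (2 ^ bb δ u) (I + 2 ^ bb δ u - 2 ^ u) (by omega) hH1 (by omega) (by omega)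
      rw [show 2 ^ u + (I + 2 ^ bb δ u - 2 ^ u) = I + 2 ^ bb δ u by omega] at h9
      exact_mod_cast hc2.trans h9
    · intro k hk hk1 hk2 hk3
      obtain ⟨g1, g2, g3, g4⟩ := block_elem h4 h5 h6 h7 h8 (k := k) (by omega) (by omega)
      have hB : B2 δ β k := by
        unfold B2
        rw [g1, g2, show k - (k - I) = I by omega]
        exact ⟨hk, by omega, by omega, hk3⟩
      refine ⟨?_, hHH k (by omega) (by omega) (Or.inr hB)⟩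
      unfold CB2
      exact mem_filter.2 ⟨mem_range.2 (by omega), hB⟩

end Pool.Agent.D0H62.PP
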